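import Mathlib

set_option autoImplicit false
open Set Topology

universe u v

namespace Pool.Agent.Results.MP_05361d_gt.FiniteCovers

/-! ### Definitions -/

/-- `𝒰` is an open cover of the space. -/
def IsOpenCover {X : Type u} [TopologicalSpace X] (𝒰 : Set (Set X)) : Prop :=
  (∀ U ∈ 𝒰, IsOpen U) ∧ ⋃₀ 𝒰 = univ

/-- `𝒱` refines `𝒰`: every member of `𝒱` lies in some member of `𝒰`. -/
def Refines {X : Type u} (𝒱 𝒰 : Set (Set X)) : Prop :=
  ∀ V ∈ 𝒱, ∃ U ∈ 𝒰, V ⊆ U

/-- `f` is a `𝒰`-map: it is continuous, and `Y` has an open cover `𝒱` whose preimages refine `𝒰`. -/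
def IsUMap {X : Type u} {Y : Type v} [TopologicalSpace X] [TopologicalSpace Y]
    (𝒰 : Set (Set X)) (f : X → Y) : Prop :=
  Continuous f ∧ ∃ 𝒱 : Set (Set Y), IsOpenCover 𝒱 ∧ Refines ((fun V => f ⁻¹' V) '' 𝒱) 𝒰

/-- A continuum: a (nonempty) connected compact Hausdorff space. -/
def IsContinuum (X : Type u) [TopologicalSpace X] : Prop :=
  ConnectedSpace X ∧ CompactSpace X ∧ T2Space X

/-- The order of the cover `𝒰` is at most `m`: every subfamily with a common point has at most
`m` members. -/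
def OrderLE {X : Type u} (m : ℕ) (𝒰 : Set (Set X)) : Prop :=
  ∀ F ⊆ 𝒰, (⋂₀ F).Nonempty → F.encard ≤ m

/-- Covering dimension at most `m`. -/
def DimLE (m : ℕ) (X : Type u) [TopologicalSpace X] : Prop :=
  ∀ 𝒰 : Set (Set X), IsOpenCover 𝒰 →
    ∃ 𝒱 : Set (Set X), IsOpenCover 𝒱 ∧ Refines 𝒱 𝒰 ∧ OrderLE (m + 1) 𝒱

/-- The covering dimension is exactly `k` (for a nonempty space). -/
def HasDim (k : ℕ) (X : Type u) [TopologicalSpace X] : Prop :=
  DimLE k X ∧ ∀ m < k, ¬ DimLE m X

/-- `X` is `𝒦`-like: for every open cover `𝒰` of `X` there is a `𝒰`-map of `X` onto a member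
of `𝒦`. -/
def Like (𝒦 : (Y : Type v) → TopologicalSpace Y → Prop) (X : Type u) [TopologicalSpace X] : Prop :=
  ∀ 𝒰 : Set (Set X), IsOpenCover 𝒰 →
    ∃ (Y : Type v) (_ : TopologicalSpace Y), 𝒦 Y ‹_› ∧
      ∃ f : X → Y, Function.Surjective f ∧ IsUMap 𝒰 f

/-- `X` is `n`-`𝒦`-like: for every open cover `𝒰` of `X` with at most `n` members there is a
`𝒰`-map of `X` onto a member of `𝒦`. -/
def NLike (n : ℕ) (𝒦 : (Y : Type v) → TopologicalSpace Y → Prop) (X : Type u)
    [TopologicalSpace X] : Prop :=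
  ∀ 𝒰 : Set (Set X), IsOpenCover 𝒰 → 𝒰.encard ≤ n →
    ∃ (Y : Type v) (_ : TopologicalSpace Y), 𝒦 Y ‹_› ∧
      ∃ f : X → Y, Function.Surjective f ∧ IsUMap 𝒰 f

/-! ### Shrinking covers -/

section Shrink

variable {X : Type u} [TopologicalSpace X] {Y : Type v} [TopologicalSpace Y]

theorem shrink_of_dimLE {k : ℕ} (hY : DimLE k Y) {f : X → Y} {J : Type u} [Fintype J]
    (hJ : Fintype.card J = k + 2) (C : J → Set X) (hf : IsUMap (range C) f) :
    ∃ V : J → Set X, (∀ j, IsOpen (V j)) ∧ (∀ j, V j ⊆ C j) ∧ (⋃ j, V j) = univ ∧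
      (⋂ j, V j) = ∅ := by
  classical
  obtain ⟨hfc, 𝒱, h𝒱, href⟩ := hf
  obtain ⟨𝒲, h𝒲, hWV, hord⟩ := hY 𝒱 h𝒱
  have : Nonempty J := Fintype.card_pos_iff.1 (by omega)
  have h1 : ∀ W ∈ 𝒲, ∃ j, f ⁻¹' W ⊆ C j := by
    intro W hW
    obtain ⟨V, hV, hWV'⟩ := hWV W hW
    obtain ⟨U, ⟨j, rfl⟩, hVU⟩ := href _ (mem_image_of_mem _ hV)
    exact ⟨j, (preimage_mono hWV').trans hVU⟩
  choose! φ hφ using h1
  refine ⟨fun j => ⋃₀ {A | ∃ W ∈ 𝒲, φ W = j ∧ A = f ⁻¹' W}, ?_, ?_, ?_, ?_⟩
  · intro j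
    apply isOpen_sUnion
    rintro A ⟨W, hW, _, rfl⟩
    exact (h𝒲.1 W hW).preimage hfc
  · intro j
    apply sUnion_subset
    rintro A ⟨W, hW, h2, rfl⟩
    rw [← h2]
    exact hφ W hW
  · rw [eq_univ_iff_forall]
    intro x
    have : f x ∈ ⋃₀ 𝒲 := by rw [h𝒲.2]; exact mem_univ _
    obtain ⟨W, hW, hx⟩ := this
    rw [mem_iUnion]
    exact ⟨φ W, f ⁻¹' W, ⟨W, hW, rfl, rfl⟩, hx⟩
  · rw [eq_empty_iff_forall_notMem]
    intro x hx
    rw [mem_iInter] at hx
    have h2 : ∀ j, ∃ W ∈ 𝒲, φ W = j ∧ f x ∈ W := by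
      intro j
      obtain ⟨A, ⟨W, hW, hj, rfl⟩, hA⟩ := hx j
      exact ⟨W, hW, hj, hA⟩
    choose W hW hWj hxW using h2
    have hinj : Function.Injective W := by
      intro a b hab
      rw [← hWj a, ← hWj b, hab]
    have h3 := hord (range W) (by rintro _ ⟨j, rfl⟩; exact hW j) ⟨f x, by
      rintro _ ⟨j, rfl⟩; exact hxW j⟩
    have h3' := hinj.encard_range.trans h3
    rw [ENat.card_eq_coe_fintype_card, hJ] at h3'
    have h4 : k + 2 ≤ k + 1 := by exact_mod_cast h3'
    omega

theorem exists_shrink {k : ℕ}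
    (hX : ∀ (J : Type u) [Fintype J], Fintype.card J = k + 2 → ∀ C : J → Set X,
      (∀ j, IsOpen (C j)) → (⋃ j, C j) = univ →
      ∃ V : J → Set X, (∀ j, IsOpen (V j)) ∧ (∀ j, V j ⊆ C j) ∧ (⋃ j, V j) = univ ∧
        (⋂ j, V j) = ∅)
    {ι : Type u} (U : ι → Set X) (hU : ∀ i, IsOpen (U i)) (hcov : (⋃ i, U i) = univ)
    (𝓘 : Finset (Finset ι)) (h𝓘 : ∀ I ∈ 𝓘, I.card = k + 2) :
    ∃ U' : ι → Set X, (∀ i, IsOpen (U' i)) ∧ (∀ i, U' i ⊆ U i) ∧ (⋃ i, U' i) = univ ∧
      ∀ I ∈ 𝓘, (⋂ i ∈ I, U' i) = ∅ := by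
  classical
  induction 𝓘 using Finset.induction_on with
  | empty => exact ⟨U, hU, fun i => Subset.rfl, hcov, fun I hI => absurd hI (Finset.notMem_empty _)⟩
  | insert I 𝓙 hIJ ih =>
    obtain ⟨U', hU'o, hU'U, hU'c, hU'I⟩ := ih (fun I' hI' => h𝓘 I' (Finset.mem_insert_of_mem hI'))
    have hIcard := h𝓘 I (Finset.mem_insert_self _ _)
    obtain ⟨i0, hi0⟩ : I.Nonempty := Finset.card_pos.1 (by omega)
    obtain ⟨V, hVo, hVC, hVc, hVe⟩ := hX {i // i ∈ I} (by rw [Fintype.card_coe]; exact hIcard)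
      (fun j => if j.1 = i0 then U' i0 ∪ ⋃ i ∈ {i | i ∉ I}, U' i else U' j.1)
      (by
        intro j
        split_ifs
        · exact (hU'o _).union (isOpen_biUnion fun i _ => hU'o i)
        · exact hU'o _)
      (by
        rw [eq_univ_iff_forall]
        intro x
        have : x ∈ ⋃ i, U' i := by rw [hU'c]; exact mem_univ _
        obtain ⟨i, hi⟩ := mem_iUnion.1 this
        rw [mem_iUnion]
        by_cases hiI : i ∈ I
        · refine ⟨⟨i, hiI⟩, ?_⟩
          dsimp only
          split_ifs with h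
          · left; rw [← h]; exact hi
          · exact hi
        · refine ⟨⟨i0, hi0⟩, ?_⟩
          dsimp only
          rw [if_pos rfl]
          right
          exact mem_biUnion (show i ∈ {i | i ∉ I} from hiI) hi)
    let σ : ι → {i // i ∈ I} := fun i => if h : i ∈ I then ⟨i, h⟩ else ⟨i0, hi0⟩
    refine ⟨fun i => U' i ∩ V (σ i), fun i => (hU'o i).inter (hVo _),
      fun i => inter_subset_left.trans (hU'U i), ?_, ?_⟩
    · rw [eq_univ_iff_forall]
      intro x
      have : x ∈ ⋃ j, V j := by rw [hVc]; exact mem_univ _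
      obtain ⟨j, hj⟩ := mem_iUnion.1 this
      rw [mem_iUnion]
      have hxC := hVC j hj
      have hσ : σ j.1 = j := by
        simp only [σ, dif_pos j.2]
      split_ifs at hxC with h
      · rcases hxC with h1 | h1
        · refine ⟨j.1, ?_, ?_⟩
          · rw [h]; exact h1
          · rw [hσ]; exact hj
        · obtain ⟨i, hi, hxi⟩ := mem_iUnion₂.1 h1
          refine ⟨i, hxi, ?_⟩
          have : σ i = j := by
            simp only [σ, dif_neg (show i ∉ I from hi)]
            exact Subtype.ext h.symm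
          rw [this]; exact hj
      · refine ⟨j.1, hxC, ?_⟩
        rw [hσ]; exact hj
    · intro I' hI'
      rcases Finset.mem_insert.1 hI' with h | h
      · subst h
        rw [eq_empty_iff_forall_notMem]
        intro x hx
        have : x ∈ ⋂ j, V j := by
          rw [mem_iInter]
          intro j
          have h1 : x ∈ U' j.1 ∩ V (σ j.1) := mem_iInter₂.1 hx j.1 j.2
          have hσ : σ j.1 = j := by
            simp only [σ, dif_pos j.2]
          rw [hσ] at h1
          exact h1.2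
        rw [hVe] at this
        exact this
      · rw [eq_empty_iff_forall_notMem]
        intro x hx
        have : x ∈ ⋂ i ∈ I', U' i := by
          rw [mem_iInter₂]
          intro i hi
          exact (mem_iInter₂.1 hx i hi).1
        rw [hU'I I' h] at this
        exact this

end Shrink

/-! ### Maps to Euclidean space -/

section Embed

variable {X : Type u} [TopologicalSpace X] [CompactSpace X] [T2Space X]

theorem vandermonde_finset {ι : Type u} (t : ι → ℝ) (ht : Function.Injective t)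
    (c : ι → ℝ) (I : Finset ι) (N : ℕ) (hI : I.card ≤ N)
    (h : ∀ j < N, ∑ i ∈ I, c i * t i ^ j = 0) : ∀ i ∈ I, c i = 0 := by
  classical
  let e := I.equivFin.symm
  have h1 : (fun a : Fin I.card => c (e a).1) = 0 := by
    refine Matrix.eq_zero_of_forall_pow_sum_mul_pow_eq_zero
      (f := fun a : Fin I.card => t (e a).1) ?_ ?_
    · intro a b hab
      exact e.injective (Subtype.ext (ht hab))
    · intro j
      have h2 := h j (lt_of_lt_of_le j.2 hI)
      rw [← h2, ← Finset.sum_coe_sort I]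
      exact Equiv.sum_comp e (fun i : {i // i ∈ I} => c i.1 * t i.1 ^ (j : ℕ))
  intro i hi
  have h2 := congrFun h1 (e.symm ⟨i, hi⟩)
  simpa using h2

theorem exists_map {k : ℕ} {ι : Type u} [Fintype ι] (U : ι → Set X) (hU : ∀ i, IsOpen (U i))
    (hcov : (⋃ i, U i) = univ)
    (hord : ∀ I : Finset ι, I.card = k + 2 → (⋂ i ∈ I, U i) = ∅) :
    ∃ g : X → (Fin (2 * k + 1) → ℝ), Continuous g ∧
      ∃ δ > 0, ∀ x, ∃ i, ∀ y, dist (g y) (g x) < δ → y ∈ U i := by
  classical
  obtain ⟨φ, hφ⟩ := PartitionOfUnity.exists_isSubordinate (isClosed_univ (X := X)) U hU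
    (by rw [hcov])
  have hsupp : ∀ i x, φ i x ≠ 0 → x ∈ U i := by
    intro i x hx
    exact hφ i (subset_tsupport _ hx)
  have hsum : ∀ x, ∑ i, φ i x = 1 := by
    intro x
    rw [← finsum_eq_sum_of_fintype]
    exact φ.sum_eq_one (mem_univ x)
  let t : ι → ℝ := fun i => ((Fintype.equivFin ι i : ℕ) : ℝ)
  have ht : Function.Injective t := by
    intro a b hab
    have h1 : ((Fintype.equivFin ι a : ℕ)) = (Fintype.equivFin ι b : ℕ) :=
      Nat.cast_injective (R := ℝ) hab
    exact (Fintype.equivFin ι).injective (Fin.ext h1)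
  let g : X → (Fin (2 * k + 1) → ℝ) := fun x j => ∑ i, φ i x * t i ^ ((j : ℕ) + 1)
  have hg : Continuous g := by
    refine continuous_pi fun j => ?_
    refine continuous_finsetSum _ fun i _ => ?_
    exact (φ i).continuous.mul continuous_const
  have hcard : ∀ x, (Finset.univ.filter fun i => φ i x ≠ 0).card ≤ k + 1 := by
    intro x
    by_contra hcon
    push Not at hcon
    obtain ⟨I, hI, hIc⟩ := Finset.exists_subset_card_eq (show k + 2 ≤ _ from hcon)
    have : x ∈ ⋂ i ∈ I, U i := by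
      rw [mem_iInter₂]
      intro i hi
      exact hsupp i x (Finset.mem_filter.1 (hI hi)).2
    rw [hord I hIc] at this
    exact this
  have hinj : ∀ x y, g x = g y → ∀ i, φ i x = φ i y := by
    intro x y hxy
    let I := (Finset.univ.filter fun i => φ i x ≠ 0) ∪ (Finset.univ.filter fun i => φ i y ≠ 0)
    have hI : I.card ≤ 2 * k + 2 := by
      refine (Finset.card_union_le _ _).trans ?_
      have := hcard x
      have := hcard y
      omega
    have hout : ∀ i ∉ I, φ i x - φ i y = 0 := by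
      intro i hi
      have h1 : φ i x = 0 := by
        by_contra h
        exact hi (Finset.mem_union_left _ (Finset.mem_filter.2 ⟨Finset.mem_univ _, h⟩))
      have h2 : φ i y = 0 := by
        by_contra h
        exact hi (Finset.mem_union_right _ (Finset.mem_filter.2 ⟨Finset.mem_univ _, h⟩))
      rw [h1, h2, sub_zero]
    have hz := vandermonde_finset t ht (fun i => φ i x - φ i y) I (2 * k + 2) hI ?_
    · intro i
      by_cases hi : i ∈ I
      · exact sub_eq_zero.1 (hz i hi)
      · exact sub_eq_zero.1 (hout i hi)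
    · intro j hj
      have h1 : ∑ i ∈ I, (φ i x - φ i y) * t i ^ j = ∑ i, (φ i x - φ i y) * t i ^ j := by
        refine Finset.sum_subset (Finset.subset_univ _) ?_
        intro i _ hi
        rw [hout i hi, zero_mul]
      rw [h1]
      have h2 : ∑ i, (φ i x - φ i y) * t i ^ j = ∑ i, φ i x * t i ^ j - ∑ i, φ i y * t i ^ j := by
        rw [← Finset.sum_sub_distrib]
        exact Finset.sum_congr rfl fun i _ => by ring
      rw [h2]
      rcases j with _ | j
      · simp only [pow_zero, mul_one]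
        rw [hsum, hsum, sub_self]
      · have h3 := congrFun hxy ⟨j, by omega⟩
        exact sub_eq_zero.2 h3
  have hcpt : ∀ i, IsCompact (g '' (U i)ᶜ) := fun i => ((hU i).isClosed_compl.isCompact).image hg
  obtain ⟨δ, hδ, hleb⟩ := lebesgue_number_lemma_of_metric (isCompact_range hg)
    (c := fun i => (g '' (U i)ᶜ)ᶜ) (fun i => (hcpt i).isClosed.isOpen_compl) (by
      rintro _ ⟨x, rfl⟩
      have h1 : ∃ i, φ i x ≠ 0 := by
        by_contra hcon
        push Not at hcon
        have := hsum x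
        rw [Finset.sum_eq_zero (fun i _ => hcon i)] at this
        exact zero_ne_one this
      obtain ⟨i, hi⟩ := h1
      rw [mem_iUnion]
      refine ⟨i, ?_⟩
      rintro ⟨y, hy, hyx⟩
      apply hy
      apply hsupp
      rw [hinj y x hyx i]
      exact hi)
  refine ⟨g, hg, δ, hδ, ?_⟩
  intro x
  obtain ⟨i, hi⟩ := hleb (g x) (mem_range_self x)
  refine ⟨i, ?_⟩
  intro y hy
  by_contra hcon
  exact hi (Metric.mem_ball.2 hy) ⟨y, hcon, rfl⟩

end Embed

/-! ### Lifting maps to the punctured plane -/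

theorem complex_lift {Y : Type v} [TopologicalSpace Y] [ContractibleSpace Y] (z : Y → ℂ)
    (hz : Continuous z) (hz0 : ∀ y, z y ≠ 0) :
    ∃ l : Y → ℂ, Continuous l ∧ ∀ y, Complex.exp (l y) = z y := by
  let h : C(Y, {w : ℂ // w ≠ 0}) := ⟨fun y => ⟨z y, hz0 y⟩, hz.subtype_mk _⟩
  have hn : h.Nullhomotopic := by
    have := (id_nullhomotopic Y).comp_right h
    simpa using this
  obtain ⟨w, ⟨H⟩⟩ := hn
  let H' := H.symm
  have hw : Complex.exp (Complex.log w.1) = w.1 := Complex.exp_log w.2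
  have cov := Complex.isCoveringMap_exp
  have h0 : ∀ a : Y, H'.toContinuousMap (0, a) =
      (⟨Complex.exp ((ContinuousMap.const Y (Complex.log w.1)) a), Complex.exp_ne_zero _⟩ :
        {w : ℂ // w ≠ 0}) := by
    intro a
    apply Subtype.ext
    show (H' (0, a)).1 = Complex.exp (Complex.log w.1)
    rw [H'.apply_zero, hw]
    rfl
  let L := cov.liftHomotopy H'.toContinuousMap (ContinuousMap.const Y (Complex.log w.1)) h0
  have hL := cov.liftHomotopy_lifts H'.toContinuousMap (ContinuousMap.const Y (Complex.log w.1)) h0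
  refine ⟨fun y => L (1, y), L.continuous.comp (by fun_prop), ?_⟩
  intro y
  have h1 := congrFun hL (1, y)
  have h2 := congrArg Subtype.val h1
  have h3 : (H'.toContinuousMap (1, y)).1 = z y := by
    show (H' (1, y)).1 = z y
    rw [H'.apply_one]
    rfl
  rw [h3] at h2
  exact h2

/-- if `cos` is positive on the range of a continuous real function on a connected space,
then the range has diameter less than `π` -/
theorem cos_pos_close {X : Type u} [TopologicalSpace X] [PreconnectedSpace X] (D : X → ℝ)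
    (hD : Continuous D) (hc : ∀ x, 0 < Real.cos (D x)) (x y : X) : |D x - D y| < Real.pi := by
  have hoc : (range D).OrdConnected := (isPreconnected_range hD).ordConnected
  have key : ∀ x y, D x - D y < Real.pi := by
    intro x y
    by_contra hcon
    push Not at hcon
    have hpi := Real.pi_pos
    set n : ℤ := ⌈(D y - Real.pi / 2) / Real.pi⌉ with hn
    have h1 : (D y - Real.pi / 2) / Real.pi ≤ n := Int.le_ceil _
    have h2 : (n : ℝ) < (D y - Real.pi / 2) / Real.pi + 1 := Int.ceil_lt_add_one _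
    have h3 : D y ≤ (2 * (n : ℝ) + 1) * Real.pi / 2 := by
      rw [div_le_iff₀ hpi] at h1
      linarith
    have h4 : (2 * (n : ℝ) + 1) * Real.pi / 2 ≤ D x := by
      have : ((n : ℝ) - 1) * Real.pi < D y - Real.pi / 2 := by
        rw [← lt_div_iff₀ hpi]
        linarith
      linarith
    obtain ⟨w, hw⟩ := hoc.out (mem_range_self y) (mem_range_self x) ⟨h3, h4⟩
    have h5 := hc w
    rw [hw] at h5
    have h6 : Real.cos ((2 * (n : ℝ) + 1) * Real.pi / 2) = 0 :=
      Real.cos_eq_zero_iff.2 ⟨n, rfl⟩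
    linarith
  rw [abs_lt]
  constructor
  · have := key y x
    linarith
  · exact key x y

/-- three vectors spanning the plane positively -/
def w1 : Fin 3 → ℝ := ![1, -1, -1]
/-- three vectors spanning the plane positively -/
def w2 : Fin 3 → ℝ := ![0, 1, -1]

theorem exists_w (α : ℝ) : ∃ a : Fin 3, 0 < w1 a * Real.cos α + w2 a * Real.sin α := by
  by_contra hcon
  push Not at hcon
  have h0 := hcon 0
  have h1 := hcon 1
  have h2 := hcon 2
  simp [w1, w2] at h0 h1 h2
  have hc : Real.cos α = 0 := by linarith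
  have hs : Real.sin α = 0 := by linarith
  have := Real.sin_sq_add_cos_sq α
  rw [hc, hs] at this
  norm_num at this

/-! ### The main argument -/

theorem like_of_nlike {k : ℕ} {𝒦 : (Y : Type v) → TopologicalSpace Y → Prop}
    (h𝒦 : ∀ (Y : Type v) (t : TopologicalSpace Y), 𝒦 Y t →
      @IsContinuum Y t ∧ @ContractibleSpace Y t ∧ @DimLE k Y t)
    {X : Type u} [TopologicalSpace X] (hX : IsContinuum X)
    (hn : NLike (3 ^ (2 * k + 1)) 𝒦 X) : Like 𝒦 X := by
  classical
  obtain ⟨hXc, hXk, hX2⟩ := hX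
  intro 𝒰 h𝒰
  -- a finite subcover
  obtain ⟨T, hT𝒰, hTfin, hTcov⟩ : ∃ T ⊆ 𝒰, T.Finite ∧ ⋃₀ T = univ := by
    obtain ⟨T, hT, hTf, hTc⟩ := isCompact_univ.elim_finite_subcover_image (b := 𝒰) (c := id)
      h𝒰.1 (by rw [← h𝒰.2, sUnion_eq_biUnion]; rfl)
    exact ⟨T, hT, hTf, univ_subset_iff.1 (by rw [sUnion_eq_biUnion]; exact hTc)⟩
  have : Fintype T := hTfin.fintype
  have hTo : ∀ i : T, IsOpen i.1 := fun i => h𝒰.1 _ (hT𝒰 i.2)
  have hTc : (⋃ i : T, i.1) = univ := by rw [← sUnion_eq_iUnion]; exact hTcov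
  have hk2 : ∀ k : ℕ, k + 2 ≤ 3 ^ (2 * k + 1) := by
    intro k
    induction k with
    | zero => norm_num
    | succ m ih =>
      have : 3 ^ (2 * (m + 1) + 1) = 9 * 3 ^ (2 * m + 1) := by ring
      omega
  -- dimension of `X`
  have hdim : ∀ (J : Type u) [Fintype J], Fintype.card J = k + 2 → ∀ C : J → Set X,
      (∀ j, IsOpen (C j)) → (⋃ j, C j) = univ →
      ∃ V : J → Set X, (∀ j, IsOpen (V j)) ∧ (∀ j, V j ⊆ C j) ∧ (⋃ j, V j) = univ ∧
        (⋂ j, V j) = ∅ := by
    intro J _ hJ C hC hCc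
    have h1 : (range C).encard ≤ ((3 ^ (2 * k + 1) : ℕ) : ℕ∞) := by
      rw [← image_univ]
      refine (encard_image_le _ _).trans ?_
      rw [encard_univ, ENat.card_eq_coe_fintype_card, hJ]
      exact_mod_cast hk2 k
    obtain ⟨Y, tY, hY, f, hfs, hf⟩ := hn (range C)
      ⟨by rintro _ ⟨j, rfl⟩; exact hC j, by rw [sUnion_range]; exact hCc⟩ h1
    exact shrink_of_dimLE (h𝒦 Y tY hY).2.2 hJ C hf
  obtain ⟨U', hU'o, hU'U, hU'c, hU'I⟩ := exists_shrink hdim (fun i : T => i.1) hTo hTc
    (Finset.powersetCard (k + 2) Finset.univ) (fun I hI => (Finset.mem_powersetCard.1 hI).2)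
  obtain ⟨g, hg, δ, hδ, hgU⟩ := exists_map U' hU'o hU'c (k := k) (fun I hI => hU'I I
    (Finset.mem_powersetCard.2 ⟨Finset.subset_univ _, hI⟩))
  -- the angles
  let α : Fin (2 * k + 1) → X → ℝ := fun j x => 2 * Real.pi * g x j / δ
  have hα : ∀ j, Continuous (α j) := by
    intro j
    exact ((continuous_const.mul ((continuous_apply j).comp hg)).div_const _)
  let P : Fin 3 → ℝ → ℝ := fun a s => w1 a * Real.cos s + w2 a * Real.sin s
  have hP : ∀ a, Continuous (P a) := by
    intro a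
    exact (continuous_const.mul Real.continuous_cos).add (continuous_const.mul Real.continuous_sin)
  let O : (Fin (2 * k + 1) → Fin 3) → Set X := fun a => {x | ∀ j, 0 < P (a j) (α j x)}
  have hO : ∀ a, IsOpen (O a) := by
    intro a
    have : O a = ⋂ j, {x | 0 < P (a j) (α j x)} := by
      ext x; simp [O]
    rw [this]
    exact isOpen_iInter_of_finite fun j => isOpen_lt continuous_const ((hP _).comp (hα j))
  have hOc : (⋃ a, O a) = univ := by
    rw [eq_univ_iff_forall]
    intro x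
    choose a ha using fun j => exists_w (α j x)
    rw [mem_iUnion]
    exact ⟨a, ha⟩
  have hcard : (range O).encard ≤ ((3 ^ (2 * k + 1) : ℕ) : ℕ∞) := by
    rw [← image_univ]
    refine (encard_image_le _ _).trans ?_
    rw [encard_univ, ENat.card_eq_coe_fintype_card]
    simp
  obtain ⟨Y, tY, hY, f, hfs, hfc, 𝒱, h𝒱, href⟩ := hn (range O)
    ⟨by rintro _ ⟨a, rfl⟩; exact hO a, by rw [sUnion_range]; exact hOc⟩ hcard
  refine ⟨Y, tY, hY, f, hfs, hfc, ?_⟩
  obtain ⟨⟨hYc, hYk, hY2⟩, hYcontr, _⟩ := h𝒦 Y tY hY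
  -- a cover of `Y` indexed by `Fin (2k+1) → Fin 3`
  let Q : (Fin (2 * k + 1) → Fin 3) → Set Y := fun a => ⋃₀ {V | V ∈ 𝒱 ∧ f ⁻¹' V ⊆ O a}
  have hQo : ∀ a, IsOpen (Q a) := fun a => isOpen_sUnion fun V hV => h𝒱.1 V hV.1
  have hQc : (⋃ a, Q a) = univ := by
    rw [eq_univ_iff_forall]
    intro y
    have : y ∈ ⋃₀ 𝒱 := by rw [h𝒱.2]; exact mem_univ _
    obtain ⟨V, hV, hy⟩ := this
    obtain ⟨_, ⟨a, rfl⟩, ha⟩ := href _ (mem_image_of_mem _ hV)
    rw [mem_iUnion]
    exact ⟨a, V, ⟨hV, ha⟩, hy⟩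
  have hQO : ∀ a x, f x ∈ Q a → x ∈ O a := by
    rintro a x ⟨V, ⟨_, hV⟩, hx⟩
    exact hV hx
  obtain ⟨ψ, hψ⟩ := PartitionOfUnity.exists_isSubordinate (isClosed_univ (X := Y)) Q hQo
    (by rw [hQc])
  have hψs : ∀ a y, ψ a y ≠ 0 → y ∈ Q a := fun a y hy => hψ a (subset_tsupport _ hy)
  have hψsum : ∀ y, ∑ a, ψ a y = 1 := by
    intro y
    rw [← finsum_eq_sum_of_fintype]
    exact ψ.sum_eq_one (mem_univ y)
  let A : Fin (2 * k + 1) → Y → ℝ := fun j y => ∑ a, ψ a y * w1 (a j)
  let B : Fin (2 * k + 1) → Y → ℝ := fun j y => ∑ a, ψ a y * w2 (a j)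
  have hA : ∀ j, Continuous (A j) := fun j =>
    continuous_finsetSum _ fun a _ => (ψ a).continuous.mul continuous_const
  have hB : ∀ j, Continuous (B j) := fun j =>
    continuous_finsetSum _ fun a _ => (ψ a).continuous.mul continuous_const
  have hAB : ∀ j x, 0 < A j (f x) * Real.cos (α j x) + B j (f x) * Real.sin (α j x) := by
    intro j x
    have h1 : A j (f x) * Real.cos (α j x) + B j (f x) * Real.sin (α j x)
        = ∑ a, ψ a (f x) * P (a j) (α j x) := by
      simp only [A, B, P]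
      rw [Finset.sum_mul, Finset.sum_mul, ← Finset.sum_add_distrib]
      exact Finset.sum_congr rfl fun a _ => by ring
    rw [h1]
    have h2 : ∃ a, ψ a (f x) ≠ 0 := by
      by_contra hcon
      push Not at hcon
      have := hψsum (f x)
      rw [Finset.sum_eq_zero (fun a _ => hcon a)] at this
      exact zero_ne_one this
    obtain ⟨a, ha⟩ := h2
    refine Finset.sum_pos' ?_ ⟨a, Finset.mem_univ _, ?_⟩
    · intro b _
      by_cases hb : ψ b (f x) = 0
      · rw [hb, zero_mul]
      · exact mul_nonneg (ψ.nonneg b _) (hQO b x (hψs b _ hb) j).le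
    · exact mul_pos (lt_of_le_of_ne (ψ.nonneg a _) (Ne.symm ha)) (hQO a x (hψs a _ ha) j)
  have hlift : ∀ j, ∃ l : Y → ℂ, Continuous l ∧ ∀ y, Complex.exp (l y) = ⟨A j y, B j y⟩ := by
    intro j
    refine complex_lift (fun y => (⟨A j y, B j y⟩ : ℂ)) ?_ ?_
    · have : (fun y => (⟨A j y, B j y⟩ : ℂ)) = fun y => (A j y : ℂ) + (B j y : ℂ) * Complex.I := by
        funext y
        exact Complex.mk_eq_add_mul_I _ _
      rw [this]
      exact (Complex.continuous_ofReal.comp (hA j)).add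
        ((Complex.continuous_ofReal.comp (hB j)).mul continuous_const)
    · intro y hy
      obtain ⟨x, rfl⟩ := hfs y
      have h1 := hAB j x
      have h2 : A j (f x) = 0 := congrArg Complex.re hy
      have h3 : B j (f x) = 0 := congrArg Complex.im hy
      rw [h2, h3] at h1
      simp at h1
  choose l hl hlexp using hlift
  let θ : Fin (2 * k + 1) → Y → ℝ := fun j y => (l j y).im
  have hθ : ∀ j, Continuous (θ j) := fun j => Complex.continuous_im.comp (hl j)
  have hcos : ∀ j x, 0 < Real.cos (α j x - θ j (f x)) := by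
    intro j x
    have h1 := hAB j x
    have h2 : A j (f x) = Real.exp (l j (f x)).re * Real.cos (θ j (f x)) := by
      have := congrArg Complex.re (hlexp j (f x))
      rw [Complex.exp_re] at this
      exact this.symm
    have h3 : B j (f x) = Real.exp (l j (f x)).re * Real.sin (θ j (f x)) := by
      have := congrArg Complex.im (hlexp j (f x))
      rw [Complex.exp_im] at this
      exact this.symm
    rw [h2, h3] at h1
    rw [Real.cos_sub]
    have h4 : 0 < Real.exp (l j (f x)).re := Real.exp_pos _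
    have h5 : 0 < Real.exp (l j (f x)).re *
        (Real.cos (α j x) * Real.cos (θ j (f x)) + Real.sin (α j x) * Real.sin (θ j (f x))) := by
      linarith
    exact (mul_pos_iff_of_pos_left h4).1 h5
  have : PreconnectedSpace X := hXc.toPreconnectedSpace
  have hclose : ∀ j x y, |(α j x - θ j (f x)) - (α j y - θ j (f y))| < Real.pi := fun j x y =>
    cos_pos_close (fun x => α j x - θ j (f x)) ((hα j).sub ((hθ j).comp hfc)) (hcos j) x y
  refine ⟨range fun y0 : Y => {y : Y | ∀ j, |θ j y - θ j y0| < Real.pi}, ⟨?_, ?_⟩, ?_⟩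
  · rintro _ ⟨y0, rfl⟩
    have : {y : Y | ∀ j, |θ j y - θ j y0| < Real.pi} = ⋂ j, {y | |θ j y - θ j y0| < Real.pi} := by
      ext y; simp
    show IsOpen {y : Y | ∀ j, |θ j y - θ j y0| < Real.pi}
    rw [this]
    exact isOpen_iInter_of_finite fun j =>
      isOpen_lt ((hθ j).sub continuous_const).abs continuous_const
  · rw [eq_univ_iff_forall]
    intro y
    refine ⟨_, mem_range_self y, ?_⟩
    intro j
    rw [sub_self, abs_zero]
    exact Real.pi_pos
  · rintro _ ⟨_, ⟨y0, rfl⟩, rfl⟩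
    obtain ⟨x0, rfl⟩ := hfs y0
    obtain ⟨i, hi⟩ := hgU x0
    refine ⟨i.1, hT𝒰 i.2, ?_⟩
    intro x hx
    apply hU'U i
    apply hi
    rw [dist_pi_lt_iff hδ]
    intro j
    have h1 := hclose j x x0
    have h2 : |θ j (f x) - θ j (f x0)| < Real.pi := hx j
    have h3 : |α j x - α j x0| < 2 * Real.pi := by
      have h4 : α j x - α j x0 = ((α j x - θ j (f x)) - (α j x0 - θ j (f x0)))
          + (θ j (f x) - θ j (f x0)) := by ring
      rw [h4]
      refine (abs_add_le _ _).trans_lt ?_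
      linarith
    have h5 : α j x - α j x0 = 2 * Real.pi * ((g x j - g x0 j) / δ) := by
      simp only [α]
      ring
    rw [h5, abs_mul, abs_of_pos (by positivity : 0 < 2 * Real.pi)] at h3
    have h6 : |(g x j - g x0 j) / δ| < 1 := by
      have hp : 0 < 2 * Real.pi := by positivity
      nlinarith
    rw [abs_div, abs_of_pos hδ, div_lt_one hδ] at h6
    rw [Real.dist_eq]
    exact h6

/-- **Finite-cover characterisation of `𝒦`-like continua.** For every `k`, the number
`n = 3 ^ (2k+1)` has the following property: if `𝒦` is any class of `k`-dimensional contractible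
continua, then a continuum `X` is `𝒦`-like if and only if it is `n`-`𝒦`-like. -/
theorem result (k : ℕ) (𝒦 : (Y : Type v) → TopologicalSpace Y → Prop)
    (h𝒦 : ∀ (Y : Type v) (t : TopologicalSpace Y), 𝒦 Y t →
      @IsContinuum Y t ∧ @ContractibleSpace Y t ∧ @HasDim k Y t)
    (X : Type u) [TopologicalSpace X] (hX : IsContinuum X) :
    Like 𝒦 X ↔ NLike (3 ^ (2 * k + 1)) 𝒦 X := by
  constructor
  · intro h 𝒰 h𝒰 _
    exact h 𝒰 h𝒰
  · intro h
    exact like_of_nlike (fun Y t hY => ⟨(h𝒦 Y t hY).1, (h𝒦 Y t hY).2.1, (h𝒦 Y t hY).2.2.1⟩) hX h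

end Pool.Agent.Results.MP_05361d_gt.FiniteCovers
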